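import Mathlib
import Pool.Agent.TH309.Tor.Par

/-!
# Volterra integral equations with smooth kernels
-/

open MeasureTheory Set Filter Topology
open scoped ContDiff

namespace Pool.Agent.U322.MO

open Pool.Agent.TH309.Tor

noncomputable section

/-- the Volterra operator -/
def VV (a : ℝ) (N : ℝ × ℝ → ℝ) (q : ℝ → ℝ) (t : ℝ) : ℝ := ∫ τ in a..t, N (t, τ) * q τ

/-- the derivative in the first variable -/
def D1 (N : ℝ × ℝ → ℝ) (p : ℝ × ℝ) : ℝ := fderiv ℝ N p (1, 0)

lemma D1_smooth {N : ℝ × ℝ → ℝ} (hN : ContDiff ℝ ∞ N) : ContDiff ℝ ∞ (D1 N) := by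
  have h1 : ContDiff ℝ ∞ (fderiv ℝ N) := hN.fderiv_right (m := ∞) (by simp)
  exact h1.clm_apply contDiff_const

lemma D1_deriv {N : ℝ × ℝ → ℝ} (hN : ContDiff ℝ ∞ N) (s t : ℝ) :
    HasDerivAt (fun s => N (s, t)) (D1 N (s, t)) s := by
  have h1 : HasFDerivAt N (fderiv ℝ N (s, t)) (s, t) :=
    (hN.differentiable (by simp) (s, t)).hasFDerivAt
  have h2 : HasDerivAt (fun s : ℝ => (s, t)) ((1 : ℝ), (0 : ℝ)) s :=
    (hasDerivAt_id s).prodMk (hasDerivAt_const s t)
  exact h1.comp_hasDerivAt s h2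

lemma VV_hasDerivAt {N : ℝ × ℝ → ℝ} (hN : ContDiff ℝ ∞ N) {q : ℝ → ℝ} (hq : Continuous q)
    (a t : ℝ) : HasDerivAt (VV a N q) (N (t, t) * q t + VV a (D1 N) q t) t := by
  have hNc := hN.continuous
  have hDc := (D1_smooth hN).continuous
  obtain ⟨g, hg⟩ : ∃ g : ℝ × ℝ → ℝ, g = fun p => N p * q p.2 := ⟨_, rfl⟩
  obtain ⟨gs, hgs⟩ : ∃ gs : ℝ × ℝ → ℝ, gs = fun p => D1 N p * q p.2 := ⟨_, rfl⟩
  have hgc : Continuous g := by rw [hg]; exact hNc.mul (hq.comp continuous_snd)
  have hgsc : Continuous gs := by rw [hgs]; exact hDc.mul (hq.comp continuous_snd)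
  have hd : ∀ s t, HasDerivAt (fun s => g (s, t)) (gs (s, t)) s := by
    intro s t
    rw [hg, hgs]
    exact (D1_deriv hN s t).mul_const (q t)
  obtain ⟨f, hf⟩ : ∃ f : ℝ × ℝ → ℝ, f = fun p => prim g p - prim g (p.1, a) := ⟨_, rfl⟩
  have h1 := hasStrictFDerivAt_of_partials (f := f) (f1 := fun p => prim gs p - prim gs (p.1, a))
    (f2 := g) ((continuous_prim hgsc).sub ((continuous_prim hgsc).comp (by fun_prop))) hgc
    (fun s t => by
      rw [hf]
      exact (hasDerivAt_prim_fst hgc hgsc hd s t).sub (hasDerivAt_prim_fst hgc hgsc hd s a))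
    (fun s t => by
      rw [hf]
      exact (hasDerivAt_prim_snd hgc s t).sub_const (prim g (s, a))) (t, t)
  have h2 : HasDerivAt (fun s : ℝ => (s, s)) ((1 : ℝ), (1 : ℝ)) t :=
    (hasDerivAt_id t).prodMk (hasDerivAt_id t)
  have h3 := HasFDerivAt.comp_hasDerivAt (f := fun s : ℝ => (s, s)) t h1.hasFDerivAt h2
  have h4 : ∀ (g : ℝ × ℝ → ℝ), Continuous g → ∀ s t : ℝ,
      prim g (s, t) - prim g (s, a) = ∫ τ in a..t, g (s, τ) := by
    intro g hgc s t
    unfold prim
    simp only
    have hi : ∀ c b : ℝ, IntervalIntegrable (fun τ => g (s, τ)) volume c b := fun c b =>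
      (hgc.comp (by fun_prop : Continuous fun τ : ℝ => (s, τ))).intervalIntegrable _ _
    rw [intervalIntegral.integral_interval_sub_left (hi _ _) (hi _ _)]
  have e1 : (f ∘ fun s : ℝ => (s, s)) = VV a N q := by
    funext s
    rw [hf]
    simp only [Function.comp]
    rw [h4 g hgc s s, hg]
    rfl
  have e2 : lin (prim gs (t, t) - prim gs (t, a)) (g (t, t)) ((1 : ℝ), (1 : ℝ)) =
      N (t, t) * q t + VV a (D1 N) q t := by
    rw [lin_apply, h4 gs hgsc t t, hg, hgs]
    unfold VV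
    simp only
    ring
  rw [e1] at h3
  rw [← e2]
  exact h3

lemma VV_cont {N : ℝ × ℝ → ℝ} (hN : Continuous N) {q : ℝ → ℝ} (hq : Continuous q) (a : ℝ) :
    Continuous (VV a N q) := by
  unfold VV
  exact intervalIntegral.continuous_parametric_intervalIntegral_of_continuous
    (f := fun t τ => N (t, τ) * q τ) (by
      have : Continuous fun p : ℝ × ℝ => N p * q p.2 := hN.mul (hq.comp continuous_snd)
      exact this) continuous_id

lemma VV_smooth (a : ℝ) (n : ℕ) : ∀ N : ℝ × ℝ → ℝ, ContDiff ℝ ∞ N → ∀ q : ℝ → ℝ,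
    ContDiff ℝ n q → ContDiff ℝ (n + 1 : ℕ) (VV a N q) := by
  induction n with
  | zero =>
    intro N hN q hq
    have hqc : Continuous q := hq.continuous
    have h1 : ContDiff ℝ ((0 : WithTop ℕ∞) + 1) (VV a N q) := by
      rw [contDiff_succ_iff_deriv]
      refine ⟨fun t => (VV_hasDerivAt hN hqc a t).differentiableAt, by simp, ?_⟩
      have e : deriv (VV a N q) = fun t => N (t, t) * q t + VV a (D1 N) q t :=
        funext fun t => (VV_hasDerivAt hN hqc a t).deriv
      rw [e, contDiff_zero]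
      exact ((hN.continuous.comp (by fun_prop : Continuous fun t : ℝ => (t, t))).mul hqc).add
        (VV_cont (D1_smooth hN).continuous hqc a)
    exact_mod_cast h1
  | succ n ih =>
    intro N hN q hq
    have hqc : Continuous q := hq.continuous
    have h1 : ContDiff ℝ (((n + 1 : ℕ) : WithTop ℕ∞) + 1) (VV a N q) := by
      rw [contDiff_succ_iff_deriv]
      refine ⟨fun t => (VV_hasDerivAt hN hqc a t).differentiableAt, by simp, ?_⟩
      have e : deriv (VV a N q) = fun t => N (t, t) * q t + VV a (D1 N) q t :=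
        funext fun t => (VV_hasDerivAt hN hqc a t).deriv
      rw [e]
      refine ContDiff.add (ContDiff.mul ?_ hq) (ih _ (D1_smooth hN) q (hq.of_le ?_))
      · have h2 : ContDiff ℝ ∞ fun t : ℝ => N (t, t) :=
          hN.comp (contDiff_id.prodMk contDiff_id)
        exact h2.of_le (by exact_mod_cast le_top)
      · exact_mod_cast Nat.le_succ n
    exact_mod_cast h1

/-- the Picard iterates -/
def Pq (a : ℝ) (N : ℝ × ℝ → ℝ) (G : ℝ → ℝ) : ℕ → ℝ → ℝ
  | 0 => G
  | n + 1 => VV a N (Pq a N G n)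

lemma Pq_cont {N : ℝ × ℝ → ℝ} (hN : Continuous N) {G : ℝ → ℝ} (hG : Continuous G) (a : ℝ)
    (n : ℕ) : Continuous (Pq a N G n) := by
  induction n with
  | zero => exact hG
  | succ n ih => exact VV_cont hN ih a

lemma VV_zero {a : ℝ} (N : ℝ × ℝ → ℝ) {q : ℝ → ℝ} (hq : ∀ t ≤ a, q t = 0) {t : ℝ} (ht : t ≤ a) :
    VV a N q t = 0 := by
  unfold VV
  rw [intervalIntegral.integral_symm, neg_eq_zero]
  have h1 : ∫ τ in t..a, N (t, τ) * q τ = ∫ τ in t..a, (0 : ℝ) := by
    refine intervalIntegral.integral_congr fun τ hτ => ?_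
    rw [uIcc_of_le ht] at hτ
    simp only [hq τ hτ.2, mul_zero]
  rw [h1, intervalIntegral.integral_zero]

lemma Pq_zero {a : ℝ} (N : ℝ × ℝ → ℝ) {G : ℝ → ℝ} (hG : ∀ t ≤ a, G t = 0) (n : ℕ) :
    ∀ t ≤ a, Pq a N G n t = 0 := by
  induction n with
  | zero => exact hG
  | succ n ih => exact fun t ht => VV_zero N ih ht

lemma Pq_bound {a T : ℝ} (haT : a ≤ T) {N : ℝ × ℝ → ℝ} (hN : Continuous N) {G : ℝ → ℝ}
    (hG : Continuous G) : ∃ C M : ℝ, 0 ≤ C ∧ 0 ≤ M ∧ ∀ n : ℕ, ∀ t ∈ Icc a T,
      |Pq a N G n t| ≤ C * ((M * (t - a)) ^ n / n.factorial) := by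
  obtain ⟨M, hM⟩ := (isCompact_Icc (a := a) (b := T)).prod (isCompact_Icc (a := a) (b := T))
    |>.exists_bound_of_continuousOn hN.continuousOn
  obtain ⟨C, hC⟩ := (isCompact_Icc (a := a) (b := T)).exists_bound_of_continuousOn hG.continuousOn
  have hM0 : 0 ≤ M := (norm_nonneg _).trans (hM (a, a) ⟨⟨le_rfl, haT⟩, ⟨le_rfl, haT⟩⟩)
  have hC0 : 0 ≤ C := (norm_nonneg _).trans (hC a ⟨le_rfl, haT⟩)
  refine ⟨C, M, hC0, hM0, fun n => ?_⟩
  induction n with
  | zero =>
    intro t ht
    simpa [Pq] using hC t ht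
  | succ n ih =>
    intro t ht
    show |∫ τ in a..t, N (t, τ) * Pq a N G n τ| ≤ _
    have h1 : ‖∫ τ in a..t, N (t, τ) * Pq a N G n τ‖ ≤
        ∫ τ in a..t, M * (C * ((M * (τ - a)) ^ n / n.factorial)) := by
      refine intervalIntegral.norm_integral_le_of_norm_le ht.1 ?_ ?_
      · refine Eventually.of_forall fun τ hτ => ?_
        have hτ' : τ ∈ Icc a T := ⟨hτ.1.le, hτ.2.trans ht.2⟩
        rw [norm_mul]
        exact mul_le_mul (hM (t, τ) ⟨ht, hτ'⟩) (ih τ hτ') (norm_nonneg _) hM0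
      · exact (by fun_prop : Continuous fun τ : ℝ =>
          M * (C * ((M * (τ - a)) ^ n / n.factorial))).intervalIntegrable _ _
    rw [Real.norm_eq_abs] at h1
    refine h1.trans (le_of_eq ?_)
    have h2 : ∫ τ in a..t, M * (C * ((M * (τ - a)) ^ n / n.factorial)) =
        (M * (C * (M ^ n / n.factorial))) * ∫ τ in a..t, (τ - a) ^ n := by
      rw [← intervalIntegral.integral_const_mul]
      refine intervalIntegral.integral_congr fun τ _ => ?_
      simp only [mul_pow]
      ring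
    have h3 : ∫ τ in a..t, (τ - a) ^ n = (t - a) ^ (n + 1) / (n + 1) := by
      rw [intervalIntegral.integral_comp_sub_right (fun x => x ^ n) a, integral_pow]
      simp
    rw [h2, h3, Nat.factorial_succ, mul_pow M (t - a) (n + 1)]
    push_cast
    have hn : (n.factorial : ℝ) ≠ 0 := by exact_mod_cast Nat.factorial_ne_zero n
    have hn1 : (n : ℝ) + 1 ≠ 0 := by positivity
    field_simp
    try ring

/-- Volterra equations of the second kind -/
theorem volterra2 (a : ℝ) {N : ℝ × ℝ → ℝ} (hN : ContDiff ℝ ∞ N) {G : ℝ → ℝ} (hG : ContDiff ℝ ∞ G)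
    (hG0 : ∀ t ≤ a, G t = 0) : ∃ q : ℝ → ℝ, ContDiff ℝ ∞ q ∧ (∀ t ≤ a, q t = 0) ∧
      ∀ t, q t = G t + VV a N q t := by
  have hNc := hN.continuous
  have hGc := hG.continuous
  obtain ⟨q, hqd⟩ : ∃ q : ℝ → ℝ, q = fun t => ∑' n, Pq a N G n t := ⟨_, rfl⟩
  have hz : ∀ t ≤ a, q t = 0 := by
    intro t ht
    rw [hqd]
    simp only [Pq_zero N hG0 _ t ht, tsum_zero]
  have hsumm : ∀ x y : ℝ, Summable fun n : ℕ => x * (y ^ n / n.factorial) := fun x y =>
    (Real.summable_pow_div_factorial y).mul_left x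
  -- bounds on half lines
  have hb : ∀ T, a ≤ T → ∃ u : ℕ → ℝ, Summable u ∧ ∀ n, ∀ t ≤ T, ‖Pq a N G n t‖ ≤ u n := by
    intro T haT
    obtain ⟨C, M, hC, hM, h1⟩ := Pq_bound haT hNc hGc
    refine ⟨fun n => C * ((M * (T - a)) ^ n / n.factorial), hsumm _ _, fun n t ht => ?_⟩
    rcases le_total t a with h2 | h2
    · rw [Pq_zero N hG0 n t h2, norm_zero]
      have : 0 ≤ T - a := by linarith
      positivity
    · refine (h1 n t ⟨h2, ht⟩).trans ?_
      have : 0 ≤ t - a := by linarith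
      show C * ((M * (t - a)) ^ n / n.factorial) ≤ C * ((M * (T - a)) ^ n / n.factorial)
      gcongr
  have hqc : Continuous q := by
    rw [continuous_iff_continuousAt]
    intro t
    obtain ⟨u, hu, h1⟩ := hb (max a (t + 1)) (le_max_left _ _)
    have h2 : ContinuousOn q (Iio (t + 1)) := by
      rw [hqd]
      refine continuousOn_tsum (fun n => (Pq_cont hNc hGc a n).continuousOn) hu fun n s hs =>
        h1 n s ((le_of_lt hs).trans (le_max_right _ _))
    exact h2.continuousAt (Iio_mem_nhds (by linarith))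
  have hsum : ∀ t, Summable fun n => Pq a N G n t := by
    intro t
    obtain ⟨u, hu, h1⟩ := hb (max a t) (le_max_left _ _)
    exact Summable.of_norm_bounded hu fun n => h1 n t (le_max_right _ _)
  have heq : ∀ t, q t = G t + VV a N q t := by
    intro t
    rcases le_total t a with h2 | h2
    · rw [hz t h2, hG0 t h2, VV_zero N hz h2, add_zero]
    · obtain ⟨u, hu, h1⟩ := hb t h2
      obtain ⟨M, hM⟩ := (isCompact_uIcc (a := a) (b := t)).exists_bound_of_continuousOn
        (f := fun τ => N (t, τ)) (hNc.comp (by fun_prop : Continuous fun τ : ℝ =>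
          (t, τ))).continuousOn
      have h3 : HasSum (fun n => ∫ τ in a..t, N (t, τ) * Pq a N G n τ)
          (∫ τ in a..t, N (t, τ) * q τ) := by
        refine intervalIntegral.hasSum_integral_of_dominated_convergence
          (fun n _ => M * u n) (fun n => ?_) (fun n => ?_) ?_ ?_ ?_
        · exact ((hNc.comp (by fun_prop : Continuous fun τ : ℝ => (t, τ))).mul
            (Pq_cont hNc hGc a n)).aestronglyMeasurable
        · refine Eventually.of_forall fun τ hτ => ?_
          rw [uIoc_of_le h2] at hτ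
          have hτ' : τ ∈ uIcc a t := by rw [uIcc_of_le h2]; exact ⟨hτ.1.le, hτ.2⟩
          rw [norm_mul]
          exact mul_le_mul (hM τ hτ') (h1 n τ hτ.2) (norm_nonneg _)
            ((norm_nonneg _).trans (hM τ hτ'))
        · exact Eventually.of_forall fun τ _ => hu.mul_left M
        · exact intervalIntegrable_const
        · refine Eventually.of_forall fun τ _ => ?_
          rw [hqd]
          exact (hsum τ).hasSum.mul_left _
      have h4 : (∑' n, Pq a N G n t) = Pq a N G 0 t + ∑' n, Pq a N G (n + 1) t :=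
        (hsum t).tsum_eq_zero_add
      have h5 : q t = ∑' n, Pq a N G n t := by rw [hqd]
      rw [h5, h4]
      show G t + ∑' n, (∫ τ in a..t, N (t, τ) * Pq a N G n τ) = _
      rw [h3.tsum_eq]
      rfl
  have hsm : ∀ n : ℕ, ContDiff ℝ n q := by
    intro n
    induction n with
    | zero => exact_mod_cast contDiff_zero.2 hqc
    | succ n ih =>
      have e : q = fun t => G t + VV a N q t := funext heq
      rw [e]
      exact (hG.of_le (by exact_mod_cast le_top)).add (VV_smooth a n N hN q ih)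
  exact ⟨q, contDiff_infty.2 hsm, hz, heq⟩

/-- Volterra equations of the first kind -/
theorem volterra1 (a : ℝ) {W : ℝ × ℝ → ℝ} (hW : ContDiff ℝ ∞ W) {c : ℝ} (hc : c ≠ 0)
    (hWc : ∀ t, W (t, t) = c) {g : ℝ → ℝ} (hg : ContDiff ℝ ∞ g) (hg0 : ∀ t ≤ a, g t = 0) :
    ∃ q : ℝ → ℝ, ContDiff ℝ ∞ q ∧ (∀ t ≤ a, q t = 0) ∧ ∀ t, VV a W q t = g t := by
  have hg' : ContDiff ℝ ∞ (deriv g) := by
    have h1 : ContDiff ℝ (∞ + 1) g := by simpa using hg
    exact (contDiff_succ_iff_deriv.1 h1).2.2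
  have hz : ∀ t ≤ a, deriv g t = 0 := by
    intro t ht
    have h1 : ∀ s < a, deriv g s = 0 := by
      intro s hs
      have h2 : g =ᶠ[𝓝 s] fun _ => 0 := by
        filter_upwards [Iio_mem_nhds hs] with r hr using hg0 r (le_of_lt hr)
      rw [h2.deriv_eq, deriv_const]
    rcases lt_or_eq_of_le ht with h2 | h2
    · exact h1 t h2
    · rw [h2]
      have h3 : Tendsto (deriv g) (𝓝[<] a) (𝓝 (deriv g a)) :=
        (hg'.continuous.tendsto a).mono_left nhdsWithin_le_nhds
      refine tendsto_nhds_unique h3 (tendsto_const_nhds.congr' ?_)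
      filter_upwards [self_mem_nhdsWithin] with s hs using (h1 s hs).symm
  obtain ⟨q, hq, hq0, hqe⟩ := volterra2 a (N := fun p => -(c⁻¹ * D1 W p))
    ((contDiff_const.mul (D1_smooth hW)).neg) (G := fun t => c⁻¹ * deriv g t)
    (contDiff_const.mul hg') (fun t ht => by rw [hz t ht, mul_zero])
  refine ⟨q, hq, hq0, fun t => ?_⟩
  have h1 : ∀ s, HasDerivAt (fun s => VV a W q s - g s) 0 s := by
    intro s
    have h2 := (VV_hasDerivAt hW hq.continuous a s).sub
      (hg.differentiable (by simp) s).hasDerivAt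
    have h3 : VV a (fun p => -(c⁻¹ * D1 W p)) q s = -(c⁻¹ * VV a (D1 W) q s) := by
      unfold VV
      rw [← intervalIntegral.integral_const_mul, ← intervalIntegral.integral_neg]
      refine intervalIntegral.integral_congr fun τ _ => ?_
      simp only
      ring
    have h4 := hqe s
    rw [h3] at h4
    have h5 : W (s, s) * q s + VV a (D1 W) q s - deriv g s = 0 := by
      rw [hWc, h4]
      field_simp
      ring
    rw [h5] at h2
    exact h2
  have h2 := is_const_of_deriv_eq_zero (fun s => (h1 s).differentiableAt)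
    (fun s => (h1 s).deriv) t a
  have h3 : VV a W q a = 0 := by unfold VV; simp
  simp only [h3, hg0 a le_rfl, sub_zero] at h2
  linarith

end

end Pool.Agent.U322.MO
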