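import Mathlib
import Pool.Agent.U322.MO.Vol

/-!
# Circle integrals of radial functions and the Abel transform
-/

open MeasureTheory Set Filter Topology
open scoped ContDiff Real

namespace Pool.Agent.U322.MO

noncomputable section

/-- a smooth function with `lam s = s` for `s ≤ 1 / 2` and `lam s ≤ 3 / 4` -/
def lam (s : ℝ) : ℝ := s * (1 - Real.smoothTransition (4 * s - 2))

lemma lam_smooth : ContDiff ℝ ∞ lam := by
  unfold lam
  exact contDiff_id.mul (contDiff_const.sub (Real.smoothTransition.contDiff.comp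
    ((contDiff_const.mul contDiff_id).sub contDiff_const)))

lemma lam_eq {s : ℝ} (hs : s ≤ 1 / 2) : lam s = s := by
  unfold lam
  rw [Real.smoothTransition.zero_of_nonpos (by linarith)]
  ring

lemma lam_le (s : ℝ) : lam s ≤ 3 / 4 := by
  rcases le_total s (1 / 2) with h | h
  · rw [lam_eq h]; linarith
  · rcases le_total s (3 / 4) with h2 | h2
    · unfold lam
      have h3 := Real.smoothTransition.nonneg (4 * s - 2)
      nlinarith
    · unfold lam
      rw [Real.smoothTransition.one_of_one_le (by linarith)]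
      norm_num

/-- the kernel -/
def kk (v : ℝ) : ℝ := (1 - 2 * v) / Real.sqrt (1 - lam v)

lemma kk_smooth : ContDiff ℝ ∞ kk := by
  unfold kk
  have h1 : ∀ v, 1 - lam v ≠ 0 := fun v => by have := lam_le v; linarith
  have h2 : ∀ v, Real.sqrt (1 - lam v) ≠ 0 := fun v =>
    (Real.sqrt_pos.2 (by have := lam_le v; linarith)).ne'
  refine ContDiff.div (contDiff_const.sub (contDiff_const.mul contDiff_id)) ?_ h2
  exact (contDiff_const.sub lam_smooth).sqrt h1

/-- the angular integral -/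
def E2 (κ : ℝ) : ℝ := ∫ θ in (-π)..π, kk (κ * Real.cos θ ^ 2)

lemma E2_smooth : ContDiff ℝ ∞ E2 := by
  unfold E2
  refine Pool.Agent.W585.contDiff_param (E := ℝ) (G := ℝ)
    (F := fun κ θ => kk (κ * Real.cos θ ^ 2)) ?_ (-π) π
  exact kk_smooth.comp (contDiff_fst.mul ((Real.contDiff_cos.comp contDiff_snd).pow 2))

lemma E2_zero : E2 0 = 2 * π := by
  unfold E2
  have h1 : kk 0 = 1 := by
    unfold kk
    rw [lam_eq (by norm_num)]
    simp
  simp only [zero_mul, h1, intervalIntegral.integral_const, smul_eq_mul, mul_one]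
  ring

/-- the Abel transform -/
def HH (q : ℝ → ℝ) (u : ℝ) : ℝ := ∫ σ in (-2 : ℝ)..2, q (u - σ ^ 2)

lemma HH_smooth {q : ℝ → ℝ} (hq : ContDiff ℝ ∞ q) : ContDiff ℝ ∞ (HH q) := by
  unfold HH
  refine Pool.Agent.W585.contDiff_param (E := ℝ) (G := ℝ) (F := fun u σ => q (u - σ ^ 2)) ?_ (-2) 2
  exact hq.comp (contDiff_fst.sub (contDiff_snd.pow 2))

lemma HH_zero {q : ℝ → ℝ} {a : ℝ} (hq : ∀ t ≤ a, q t = 0) {u : ℝ} (hu : u ≤ a) : HH q u = 0 := by
  unfold HH
  have h1 : ∀ σ : ℝ, q (u - σ ^ 2) = 0 := fun σ => hq _ (by nlinarith [sq_nonneg σ])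
  simp only [h1, intervalIntegral.integral_zero]

lemma HH_full {q : ℝ → ℝ} {a : ℝ} (hq : ∀ t ≤ a, q t = 0) {u : ℝ} (hu : u ≤ a + 4) :
    HH q u = ∫ σ, q (u - σ ^ 2) := by
  unfold HH
  refine intervalIntegral.integral_eq_integral_of_support_subset fun σ hσ => ?_
  have h1 : q (u - σ ^ 2) ≠ 0 := hσ
  have h2 : a < u - σ ^ 2 := by
    by_contra h
    exact h1 (hq _ (not_lt.1 h))
  have h3 : σ ^ 2 < 2 ^ 2 := by linarith
  have h4 := abs_lt_of_sq_lt_sq h3 (by norm_num)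
  rw [abs_lt] at h4
  exact ⟨h4.1, h4.2.le⟩

lemma HH_scale {q : ℝ → ℝ} {a : ℝ} (hq : ∀ t ≤ a, q t = 0) {u : ℝ} (hu : u ≤ a + 4) {r : ℝ}
    (hr : 0 < r) : HH q u = r * ∫ z, q (u - r ^ 2 * z ^ 2) := by
  rw [HH_full hq hu]
  have h1 := MeasureTheory.Measure.integral_comp_mul_left (fun σ => q (u - σ ^ 2)) r
  simp only [mul_pow, smul_eq_mul] at h1
  rw [h1, abs_of_pos (inv_pos.2 hr), ← mul_assoc, mul_inv_cancel₀ hr.ne', one_mul]

/-- the circle integral of a radial function -/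
def II (F : ℝ → ℝ) (t h : ℝ) : ℝ := ∫ φ in (-π)..π, F (t - h * (1 - Real.cos φ)) * Real.cos φ

lemma II_add {F G : ℝ → ℝ} (hF : Continuous F) (hG : Continuous G) (t h : ℝ) :
    II (fun u => F u + G u) t h = II F t h + II G t h := by
  unfold II
  rw [← intervalIntegral.integral_add]
  · refine intervalIntegral.integral_congr fun φ _ => ?_
    simp only
    ring
  · exact (by fun_prop : Continuous fun φ : ℝ =>
      F (t - h * (1 - Real.cos φ)) * Real.cos φ).intervalIntegrable _ _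
  · exact (by fun_prop : Continuous fun φ : ℝ =>
      G (t - h * (1 - Real.cos φ)) * Real.cos φ).intervalIntegrable _ _

/-- the substitution `y = sin (φ / 2)` -/
lemma II_y {q : ℝ → ℝ} (hqc : Continuous q) {a : ℝ} (hq : ∀ t ≤ a, q t = 0) {t h : ℝ}
    (hh : 0 < h) (hth : t - a ≤ h) :
    II (HH q) t h = 2 * ∫ y, HH q (t - 2 * h * y ^ 2) * kk (y ^ 2) := by
  have hHc : Continuous (HH q) := by
    unfold HH
    exact intervalIntegral.continuous_parametric_intervalIntegral_of_continuous'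
      (f := fun u σ => q (u - σ ^ 2)) (by
        have : Continuous fun p : ℝ × ℝ => q (p.1 - p.2 ^ 2) := by fun_prop
        exact this) _ _
  obtain ⟨g, hg⟩ : ∃ g : ℝ → ℝ, g = fun φ => HH q (t - h * (1 - Real.cos φ)) * Real.cos φ :=
    ⟨_, rfl⟩
  have hgc : Continuous g := by rw [hg]; fun_prop
  have hs2 : (Real.sqrt 2 / 2) ^ 2 = 1 / 2 := by
    rw [div_pow, Real.sq_sqrt (by norm_num)]; norm_num
  have hs0 : 0 < Real.sqrt 2 / 2 := by positivity
  have hpi := Real.pi_pos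
  -- the integral over `(-π/2, π/2)`
  have h1 : II (HH q) t h = ∫ φ in (-(π / 2))..(π / 2), g φ := by
    have e : ∀ x y : ℝ, IntervalIntegrable g volume x y := fun x y => hgc.intervalIntegrable _ _
    have e0 : II (HH q) t h = ∫ φ in (-π)..π, g φ := by rw [hg]; rfl
    have ez : ∀ φ : ℝ, Real.cos φ ≤ 0 → g φ = 0 := by
      intro φ hφ
      rw [hg]
      simp only
      rw [HH_zero hq (by nlinarith), zero_mul]
    rw [e0, ← intervalIntegral.integral_add_adjacent_intervals (e (-π) (-(π / 2)))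
      (e (-(π / 2)) π), ← intervalIntegral.integral_add_adjacent_intervals (e (-(π / 2)) (π / 2))
      (e (π / 2) π)]
    have e1 : ∫ φ in (-π)..(-(π / 2)), g φ = 0 := by
      rw [intervalIntegral.integral_congr (g := fun _ => (0 : ℝ)) fun φ hφ => ?_]
      · simp
      · rw [uIcc_of_le (by linarith)] at hφ
        refine ez φ ?_
        rw [← Real.cos_neg]
        exact Real.cos_nonpos_of_pi_div_two_le_of_le (by linarith [hφ.2]) (by linarith [hφ.1])
    have e2 : ∫ φ in (π / 2)..π, g φ = 0 := by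
      rw [intervalIntegral.integral_congr (g := fun _ => (0 : ℝ)) fun φ hφ => ?_]
      · simp
      · rw [uIcc_of_le (by linarith)] at hφ
        exact ez φ (Real.cos_nonpos_of_pi_div_two_le_of_le hφ.1 (by linarith [hφ.2]))
    rw [e1, e2]
    ring
  -- the substitution
  have harc : Real.arcsin (Real.sqrt 2 / 2) = π / 4 := by
    rw [← Real.sin_pi_div_four]
    exact Real.arcsin_sin (by linarith) (by linarith)
  have hb : ∀ y ∈ uIcc (-(Real.sqrt 2 / 2)) (Real.sqrt 2 / 2), y ^ 2 ≤ 1 / 2 := by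
    intro y hy
    rw [uIcc_of_le (by linarith)] at hy
    rw [← hs2]
    exact sq_le_sq' hy.1 hy.2
  have hder : ∀ y ∈ uIcc (-(Real.sqrt 2 / 2)) (Real.sqrt 2 / 2),
      HasDerivAt (fun y => 2 * Real.arcsin y) (2 * (1 / Real.sqrt (1 - y ^ 2))) y := by
    intro y hy
    have h3 := hb y hy
    refine (Real.hasDerivAt_arcsin ?_ ?_).const_mul 2
    · intro h4; rw [h4] at h3; norm_num at h3
    · intro h4; rw [h4] at h3; norm_num at h3
  have hcont : ContinuousOn (fun y : ℝ => 2 * (1 / Real.sqrt (1 - y ^ 2)))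
      (uIcc (-(Real.sqrt 2 / 2)) (Real.sqrt 2 / 2)) := by
    refine ContinuousOn.mul continuousOn_const (ContinuousOn.div continuousOn_const
      (Continuous.continuousOn (by fun_prop)) fun y hy => ?_)
    have h3 := hb y hy
    exact (Real.sqrt_pos.2 (by linarith)).ne'
  have h2 : ∫ φ in (-(π / 2))..(π / 2), g φ = ∫ y in (-(Real.sqrt 2 / 2))..(Real.sqrt 2 / 2),
      (g ∘ fun y => 2 * Real.arcsin y) y * (2 * (1 / Real.sqrt (1 - y ^ 2))) := by
    rw [intervalIntegral.integral_comp_mul_deriv (f := fun y => 2 * Real.arcsin y) (g := g)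
      (f' := fun y => 2 * (1 / Real.sqrt (1 - y ^ 2))) hder hcont hgc]
    simp only [Real.arcsin_neg, harc]
    congr 1 <;> ring
  have h3 : ∫ y in (-(Real.sqrt 2 / 2))..(Real.sqrt 2 / 2),
      (g ∘ fun y => 2 * Real.arcsin y) y * (2 * (1 / Real.sqrt (1 - y ^ 2))) =
      ∫ y in (-(Real.sqrt 2 / 2))..(Real.sqrt 2 / 2),
        2 * (HH q (t - 2 * h * y ^ 2) * kk (y ^ 2)) := by
    refine intervalIntegral.integral_congr fun y hy => ?_
    have h4 := hb y hy
    have h5 : -1 ≤ y ∧ y ≤ 1 := by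
      have h6 : y ^ 2 ≤ 1 ^ 2 := by linarith
      exact abs_le.1 (abs_le_of_sq_le_sq h6 (by norm_num))
    have h6 : Real.cos (2 * Real.arcsin y) = 1 - 2 * y ^ 2 := by
      rw [Real.cos_two_mul, Real.cos_sq', Real.sin_arcsin h5.1 h5.2]
      ring
    simp only [Function.comp, hg, h6]
    unfold kk
    rw [lam_eq h4]
    have h7 : t - h * (1 - (1 - 2 * y ^ 2)) = t - 2 * h * y ^ 2 := by ring
    rw [h7]
    ring
  rw [h1, h2, h3, intervalIntegral.integral_const_mul]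
  congr 1
  refine intervalIntegral.integral_eq_integral_of_support_subset fun y hy => ?_
  have h4 : HH q (t - 2 * h * y ^ 2) ≠ 0 := by
    intro h5
    refine hy ?_
    simp only [h5, zero_mul]
  have h5 : a < t - 2 * h * y ^ 2 := by
    by_contra h6
    exact h4 (HH_zero hq (not_lt.1 h6))
  have h6 : y ^ 2 < (Real.sqrt 2 / 2) ^ 2 := by
    rw [hs2]
    nlinarith
  have h7 := abs_lt.1 (abs_lt_of_sq_lt_sq h6 hs0.le)
  exact ⟨h7.1, h7.2.le⟩

/-- the angular integration -/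
lemma polar_y {q : ℝ → ℝ} (hqc : Continuous q) {a : ℝ} (hq : ∀ t ≤ a, q t = 0) {t h : ℝ}
    (hh : 0 < h) (hta : a ≤ t) :
    ∫ p : ℝ × ℝ, q (t - 2 * h * (p.1 ^ 2 + p.2 ^ 2)) * kk (p.1 ^ 2) =
      (4 * h)⁻¹ * ∫ τ in a..t, q τ * E2 ((t - τ) / (2 * h)) := by
  have hkc : Continuous kk := kk_smooth.continuous
  have hEc : Continuous E2 := E2_smooth.continuous
  rw [← integral_comp_polarCoord_symm]
  obtain ⟨f, hf⟩ : ∃ f : ℝ × ℝ → ℝ, f = fun p => p.1 * (q (t - 2 * h * p.1 ^ 2) *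
      kk (p.1 ^ 2 * Real.cos p.2 ^ 2)) := ⟨_, rfl⟩
  have hfc : Continuous f := by rw [hf]; fun_prop
  have e1 : ∫ p in polarCoord.target, p.1 • (q (t - 2 * h * ((polarCoord.symm p).1 ^ 2 +
      (polarCoord.symm p).2 ^ 2)) * kk ((polarCoord.symm p).1 ^ 2)) =
      ∫ p in Ioi (0 : ℝ) ×ˢ Ioo (-π) π, f p := by
    rw [polarCoord_target]
    refine setIntegral_congr_fun (measurableSet_Ioi.prod measurableSet_Ioo) fun p _ => ?_
    simp only [polarCoord_symm_apply, smul_eq_mul, hf]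
    have h1 : (p.1 * Real.cos p.2) ^ 2 + (p.1 * Real.sin p.2) ^ 2 = p.1 ^ 2 := by
      have := Real.cos_sq_add_sin_sq p.2
      calc (p.1 * Real.cos p.2) ^ 2 + (p.1 * Real.sin p.2) ^ 2 =
          p.1 ^ 2 * (Real.cos p.2 ^ 2 + Real.sin p.2 ^ 2) := by ring
        _ = p.1 ^ 2 := by rw [this, mul_one]
    rw [h1, mul_pow]
  rw [e1]
  obtain ⟨R, hR⟩ : ∃ R, R = Real.sqrt ((t - a) / (2 * h)) := ⟨_, rfl⟩
  have hR0 : 0 ≤ R := by rw [hR]; positivity
  have hR2 : 2 * h * R ^ 2 = t - a := by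
    rw [hR, Real.sq_sqrt (div_nonneg (by linarith) (by linarith))]
    field_simp
  have hz : ∀ ϱ : ℝ, R < ϱ → q (t - 2 * h * ϱ ^ 2) = 0 := by
    intro ϱ h1
    refine hq _ ?_
    have h2 : R ^ 2 ≤ ϱ ^ 2 := pow_le_pow_left₀ hR0 h1.le 2
    nlinarith
  have hint : IntegrableOn f (Ioi (0 : ℝ) ×ˢ Ioo (-π) π) (volume.prod volume) := by
    have h1 : IntegrableOn f (Icc 0 R ×ˢ Icc (-π) π) (volume.prod volume) :=
      hfc.continuousOn.integrableOn_compact (isCompact_Icc.prod isCompact_Icc)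
    refine h1.of_forall_diff_eq_zero (measurableSet_Ioi.prod measurableSet_Ioo) fun p hp => ?_
    have h2 : R < p.1 := by
      by_contra h3
      exact hp.2 ⟨⟨(le_of_lt hp.1.1), not_lt.1 h3⟩, Ioo_subset_Icc_self hp.1.2⟩
    rw [hf]
    simp only
    rw [hz _ h2, zero_mul, mul_zero]
  rw [Measure.volume_eq_prod, setIntegral_prod f hint]
  have e2 : ∀ ϱ : ℝ, ∫ θ in Ioo (-π) π, f (ϱ, θ) = ϱ * (q (t - 2 * h * ϱ ^ 2) * E2 (ϱ ^ 2)) := by
    intro ϱ
    rw [hf]
    simp only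
    rw [integral_const_mul, integral_const_mul, ← integral_Ioc_eq_integral_Ioo,
      ← intervalIntegral.integral_of_le (by linarith [Real.pi_pos])]
    rfl
  simp only [e2]
  have e3 : ∫ ϱ in Ioi (0 : ℝ), ϱ * (q (t - 2 * h * ϱ ^ 2) * E2 (ϱ ^ 2)) =
      ∫ ϱ in Ioc 0 R, ϱ * (q (t - 2 * h * ϱ ^ 2) * E2 (ϱ ^ 2)) := by
    refine setIntegral_eq_of_subset_of_forall_diff_eq_zero measurableSet_Ioi
      Ioc_subset_Ioi_self fun ϱ hϱ => ?_
    have h2 : R < ϱ := by
      by_contra h3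
      exact hϱ.2 ⟨hϱ.1, not_lt.1 h3⟩
    rw [hz _ h2, zero_mul, mul_zero]
  rw [e3, ← intervalIntegral.integral_of_le hR0]
  obtain ⟨G, hG⟩ : ∃ G : ℝ → ℝ, G = fun τ => q τ * E2 ((t - τ) / (2 * h)) := ⟨_, rfl⟩
  have hGc : Continuous G := by rw [hG]; fun_prop
  have e4 := intervalIntegral.integral_comp_mul_deriv (a := 0) (b := R)
    (f := fun ϱ => t - 2 * h * ϱ ^ 2) (f' := fun ϱ => -(4 * h * ϱ)) (g := G) (fun ϱ _ => by
      have h1 := (((hasDerivAt_id ϱ).pow 2).const_mul (2 * h)).const_sub t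
      refine h1.congr_deriv ?_
      simp
      ring) (by fun_prop) hGc
  have e5 : ∫ ϱ in (0 : ℝ)..R, (G ∘ fun ϱ => t - 2 * h * ϱ ^ 2) ϱ * -(4 * h * ϱ) =
      -(4 * h) * ∫ ϱ in (0 : ℝ)..R, ϱ * (q (t - 2 * h * ϱ ^ 2) * E2 (ϱ ^ 2)) := by
    rw [← intervalIntegral.integral_const_mul]
    refine intervalIntegral.integral_congr fun ϱ _ => ?_
    simp only [Function.comp, hG]
    have h1 : (t - (t - 2 * h * ϱ ^ 2)) / (2 * h) = ϱ ^ 2 := by
      have := hh.ne'
      field_simp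
      ring
    rw [h1]
    ring
  have e6 : t - 2 * h * R ^ 2 = a := by rw [hR2]; ring
  have e7 : t - 2 * h * (0 : ℝ) ^ 2 = t := by ring
  simp only [e6, e7] at e4
  rw [e5, intervalIntegral.integral_symm a t] at e4
  have h4 : (4 * h) ≠ 0 := by positivity
  have e8 : ∫ ϱ in (0 : ℝ)..R, ϱ * (q (t - 2 * h * ϱ ^ 2) * E2 (ϱ ^ 2)) =
      (4 * h)⁻¹ * ∫ τ in a..t, G τ := by
    rw [eq_inv_mul_iff_mul_eq₀ h4]
    linarith
  rw [e8, hG]

/-- circle integrals of Abel transforms -/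
theorem II_HH {q : ℝ → ℝ} (hqc : Continuous q) {a : ℝ} (hq : ∀ t ≤ a, q t = 0) {t h : ℝ}
    (hh : 0 < h) (hta : a ≤ t) (hth : t - a ≤ h) (ht4 : t ≤ a + 4) :
    II (HH q) t h = (Real.sqrt (2 * h))⁻¹ * ∫ τ in a..t, E2 ((t - τ) / (2 * h)) * q τ := by
  have hkc : Continuous kk := kk_smooth.continuous
  obtain ⟨r, hr⟩ : ∃ r, r = Real.sqrt (2 * h) := ⟨_, rfl⟩
  have hr0 : 0 < r := by rw [hr]; positivity
  have hr2 : r ^ 2 = 2 * h := by rw [hr, Real.sq_sqrt (by linarith)]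
  rw [II_y hqc hq hh hth]
  have e1 : ∀ y : ℝ, HH q (t - 2 * h * y ^ 2) * kk (y ^ 2) =
      r * ∫ z, q (t - 2 * h * (y ^ 2 + z ^ 2)) * kk (y ^ 2) := by
    intro y
    rw [HH_scale hq (u := t - 2 * h * y ^ 2) (by nlinarith [sq_nonneg y]) hr0,
      integral_mul_const, mul_assoc]
    congr 2
    refine integral_congr_ae (Eventually.of_forall fun z => ?_)
    simp only [hr2]
    congr 1
    ring
  simp only [e1]
  rw [integral_const_mul]
  have hint : Integrable (fun p : ℝ × ℝ => q (t - 2 * h * (p.1 ^ 2 + p.2 ^ 2)) * kk (p.1 ^ 2))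
      (volume.prod volume) := by
    refine Continuous.integrable_of_hasCompactSupport (by fun_prop) ?_
    obtain ⟨R, hR⟩ : ∃ R, R = (t - a) / (2 * h) + 1 := ⟨_, rfl⟩
    have hRt : t - a = 2 * h * (R - 1) := by rw [hR]; field_simp; ring
    have hR1 : 1 ≤ R := by
      rw [hR]
      have : 0 ≤ (t - a) / (2 * h) := div_nonneg (by linarith) (by linarith)
      linarith
    refine HasCompactSupport.of_support_subset_isCompact
      ((isCompact_Icc (a := -R) (b := R)).prod (isCompact_Icc (a := -R) (b := R))) fun p hp => ?_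
    have h1 : q (t - 2 * h * (p.1 ^ 2 + p.2 ^ 2)) ≠ 0 := by
      intro h2
      exact hp (by simp only [h2, zero_mul])
    have h2 : a < t - 2 * h * (p.1 ^ 2 + p.2 ^ 2) := by
      by_contra h3
      exact h1 (hq _ (not_lt.1 h3))
    have h3 : p.1 ^ 2 + p.2 ^ 2 < R - 1 := by
      by_contra h4
      have h5 := mul_le_mul_of_nonneg_left (not_lt.1 h4) (by linarith : (0 : ℝ) ≤ 2 * h)
      linarith
    have h4 : ∀ s : ℝ, s ^ 2 < R - 1 → s ∈ Icc (-R) R := by
      intro s hs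
      have h5 : s ^ 2 ≤ R ^ 2 := by nlinarith
      exact abs_le.1 (abs_le_of_sq_le_sq h5 (by linarith))
    exact ⟨h4 _ (by nlinarith [sq_nonneg p.2]), h4 _ (by nlinarith [sq_nonneg p.1])⟩
  have e2 := integral_prod _ hint
  simp only at e2
  rw [← e2, ← Measure.volume_eq_prod, polar_y hqc hq hh hta]
  have e3 : ∫ τ in a..t, q τ * E2 ((t - τ) / (2 * h)) =
      ∫ τ in a..t, E2 ((t - τ) / (2 * h)) * q τ :=
    intervalIntegral.integral_congr fun τ _ => by simp only [mul_comm]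
  rw [e3, ← hr]
  have e4 : 2 * (r * ((4 * h)⁻¹ * ∫ τ in a..t, E2 ((t - τ) / (2 * h)) * q τ)) =
      (2 * r * (4 * h)⁻¹) * ∫ τ in a..t, E2 ((t - τ) / (2 * h)) * q τ := by ring
  have e5 : 2 * r * (4 * h)⁻¹ = r⁻¹ := by
    have e6 : 4 * h = 2 * r ^ 2 := by rw [hr2]; ring
    rw [e6]
    field_simp
  rw [e4, e5]

end

end Pool.Agent.U322.MO
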