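import Mathlib
import Pool.Agent.U322.MO.Ker

/-!
# The extension of radial solutions to larger discs
-/

open MeasureTheory Set Filter Topology
open scoped ContDiff Real

namespace Pool.Agent.U322.MO

noncomputable section

/-- the centre of the circle with the outer point `√t` -/
def Xc (α t : ℝ) : ℝ := (Real.sqrt t - α) / (1 - α)

/-- the half width of the circle in the variable `|ζ| ^ 2` -/
def hc (α t : ℝ) : ℝ := 2 * Xc α t * (α * (1 - Xc α t))

variable {α : ℝ}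

lemma Xc_mem (h0 : 0 < α) (h1 : α < 1) {t : ℝ} (ht : α ^ 2 < t) (ht1 : t < 1) :
    0 < Xc α t ∧ Xc α t < 1 := by
  have h2 : α < Real.sqrt t := Real.lt_sqrt_of_sq_lt ht
  have h3 : Real.sqrt t < 1 := by
    rw [Real.sqrt_lt' one_pos]; linarith
  unfold Xc
  constructor
  · exact div_pos (by linarith) (by linarith)
  · rw [div_lt_one (by linarith)]; linarith

lemma hc_pos (h0 : 0 < α) (h1 : α < 1) {t : ℝ} (ht : α ^ 2 < t) (ht1 : t < 1) : 0 < hc α t := by
  have h2 := Xc_mem h0 h1 ht ht1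
  unfold hc
  have : 0 < 1 - Xc α t := by linarith [h2.2]
  have := h2.1
  positivity

lemma hc_cont (α : ℝ) : Continuous (hc α) := by
  unfold hc Xc
  fun_prop

lemma hc_smooth (α : ℝ) {t : ℝ} (ht : 0 < t) : ContDiffAt ℝ ∞ (hc α) t := by
  have h1 : ContDiffAt ℝ ∞ (Xc α) t := by
    unfold Xc
    exact ((Real.contDiffAt_sqrt ht.ne').sub contDiffAt_const).div_const _
  unfold hc
  exact (contDiffAt_const.mul h1).mul (contDiffAt_const.mul (contDiffAt_const.sub h1))

/-- the circle integrals of the radial function with the profile `F` vanish up to `b` -/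
def Sol (α : ℝ) (F : ℝ → ℝ) (b : ℝ) : Prop := ∀ t, α ^ 2 < t → t ≤ b → II F t (hc α t) = 0

lemma II_smooth {F : ℝ → ℝ} (hF : ContDiff ℝ ∞ F) :
    ContDiff ℝ ∞ (fun p : ℝ × ℝ => II F p.1 p.2) := by
  unfold II
  refine Pool.Agent.W585.contDiff_param (E := ℝ × ℝ) (G := ℝ)
    (F := fun p φ => F (p.1 - p.2 * (1 - Real.cos φ)) * Real.cos φ) ?_ (-π) π
  have h1 : ContDiff ℝ ∞ fun p : (ℝ × ℝ) × ℝ => Real.cos p.2 :=
    Real.contDiff_cos.comp contDiff_snd
  refine ContDiff.mul (hF.comp ?_) h1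
  exact (contDiff_fst.comp contDiff_fst).sub
    ((contDiff_snd.comp contDiff_fst).mul (contDiff_const.sub h1))

lemma II_congr {F G : ℝ → ℝ} {t h : ℝ} (hh : 0 ≤ h) (hFG : ∀ u ≤ t, F u = G u) :
    II F t h = II G t h := by
  unfold II
  refine intervalIntegral.integral_congr fun φ _ => ?_
  rw [hFG _ (by nlinarith [Real.cos_le_one φ])]

/-- one step -/
lemma ext1 (h0 : 0 < α) (h1 : α < 1) {a b : ℝ} (ha : α ^ 2 < a) (hab : a < b) (hb : b < 1)
    (hδ : ∀ t ∈ Icc a b, b - a ≤ hc α t) {F : ℝ → ℝ} (hF : ContDiff ℝ ∞ F) (hs : Sol α F a) :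
    ∃ F' : ℝ → ℝ, ContDiff ℝ ∞ F' ∧ (∀ u ≤ a, F' u = F u) ∧ Sol α F' b := by
  have ha0 : 0 < a := by nlinarith
  -- the cut off
  obtain ⟨ε, hε, hε1, hε2⟩ : ∃ ε, 0 < ε ∧ ε < a - α ^ 2 ∧ ε < 1 - b := by
    refine ⟨min (a - α ^ 2) (1 - b) / 2, by
      have : 0 < min (a - α ^ 2) (1 - b) := lt_min (by linarith) (by linarith)
      linarith, ?_, ?_⟩
    · have := min_le_left (a - α ^ 2) (1 - b); linarith
    · have := min_le_right (a - α ^ 2) (1 - b); linarith
  obtain ⟨f, hf⟩ : ∃ f : ContDiffBump ((a + b) / 2 : ℝ), f.rIn = (b - a) / 2 ∧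
      f.rOut = (b - a) / 2 + ε :=
    ⟨⟨(b - a) / 2, (b - a) / 2 + ε, by linarith, by linarith⟩, rfl, rfl⟩
  have hf1 : ∀ t ∈ Icc a b, f t = 1 := by
    intro t ht
    refine f.one_of_mem_closedBall ?_
    rw [hf.1, Metric.mem_closedBall, Real.dist_eq, abs_le]
    constructor <;> linarith [ht.1, ht.2]
  have hfs : ∀ t ∈ tsupport f, α ^ 2 < t ∧ t < 1 := by
    intro t ht
    rw [f.tsupport_eq, hf.2, Metric.mem_closedBall, Real.dist_eq, abs_le] at ht
    constructor <;> linarith [ht.1, ht.2]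
  have hfz : ∀ t ≤ α ^ 2, f t = 0 := by
    intro t ht
    by_contra h2
    have h3 := hfs t (subset_tsupport _ h2)
    linarith [h3.1]
  have hf_sm : ContDiff ℝ ∞ f := f.contDiff
  have hcut : ∀ g : ℝ → ℝ, (∀ t, α ^ 2 < t → t < 1 → ContDiffAt ℝ ∞ g t) →
      ContDiff ℝ ∞ fun t => f t * g t := by
    intro g hg
    rw [contDiff_iff_contDiffAt]
    intro t
    by_cases ht : t ∈ tsupport f
    · have h2 := hfs t ht
      exact hf_sm.contDiffAt.mul (hg t h2.1 h2.2)
    · have h3 : ∀ᶠ s in 𝓝 t, f s * g s = 0 := by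
        filter_upwards [(isClosed_tsupport f).isOpen_compl.mem_nhds ht] with s hs
        rw [image_eq_zero_of_notMem_tsupport hs, zero_mul]
      exact (contDiffAt_const (c := (0 : ℝ))).congr_of_eventuallyEq h3
  have ht0 : ∀ t, α ^ 2 < t → 0 < t := fun t ht => by nlinarith
  have hβ := hcut (fun t => (2 * hc α t)⁻¹) fun t h2 h3 => by
    refine ContDiffAt.inv (contDiffAt_const.mul (hc_smooth α (ht0 t h2))) ?_
    have := hc_pos h0 h1 h2 h3
    positivity
  have hg := hcut (fun t => -(Real.sqrt (2 * hc α t) * II F t (hc α t))) fun t h2 h3 => by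
    have h4 := hc_smooth α (ht0 t h2)
    have h5 := hc_pos h0 h1 h2 h3
    refine ContDiffAt.neg (ContDiffAt.mul ?_ ?_)
    · exact (contDiffAt_const.mul h4).sqrt (by positivity)
    · exact ContDiffAt.comp t (g := fun p : ℝ × ℝ => II F p.1 p.2) (f := fun t => (t, hc α t))
        (II_smooth hF).contDiffAt (contDiffAt_id.prodMk h4)
  obtain ⟨q, hq, hq0, hqe⟩ := volterra1 a
    (W := fun p => E2 ((p.1 - p.2) * (f p.1 * (2 * hc α p.1)⁻¹)))
    (E2_smooth.comp ((contDiff_fst.sub contDiff_snd).mul (hβ.comp contDiff_fst)))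
    (c := 2 * π) (by have := Real.pi_pos; positivity)
    (fun t => by simp only [sub_self, zero_mul, E2_zero]) hg (fun t ht => by
      rcases le_or_gt t (α ^ 2) with h2 | h2
      · rw [hfz t h2, zero_mul]
      · rw [hs t h2 ht]; simp)
  have hHs := HH_smooth hq
  refine ⟨fun u => F u + HH q u, hF.add hHs, fun u hu => by simp only [HH_zero hq0 hu, add_zero], ?_⟩
  intro t ht htb
  have ht1 : t < 1 := by linarith
  have hpos := hc_pos h0 h1 ht ht1
  rw [II_add hF.continuous hHs.continuous]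
  rcases le_or_gt t a with h2 | h2
  · rw [hs t ht h2, II_congr (G := fun _ => 0) hpos.le fun u hu => HH_zero hq0 (hu.trans h2)]
    unfold II
    simp
  · have hmem : t ∈ Icc a b := ⟨h2.le, htb⟩
    rw [II_HH hq.continuous hq0 hpos h2.le (by have := hδ t hmem; linarith) (by linarith)]
    have e1 : ∫ τ in a..t, E2 ((t - τ) / (2 * hc α t)) * q τ =
        VV a (fun p => E2 ((p.1 - p.2) * (f p.1 * (2 * hc α p.1)⁻¹))) q t := by
      unfold VV
      refine intervalIntegral.integral_congr fun τ _ => ?_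
      simp only [hf1 t hmem, one_mul, div_eq_mul_inv]
    rw [e1, hqe t]
    simp only [hf1 t hmem, one_mul]
    have e2 : Real.sqrt (2 * hc α t) ≠ 0 := (Real.sqrt_pos.2 (by positivity)).ne'
    field_simp
    ring

/-- finitely many steps -/
lemma extT (h0 : 0 < α) (h1 : α < 1) {a T : ℝ} (ha : α ^ 2 < a) (haT : a ≤ T) (hT : T < 1)
    {F : ℝ → ℝ} (hF : ContDiff ℝ ∞ F) (hs : Sol α F a) :
    ∃ F' : ℝ → ℝ, ContDiff ℝ ∞ F' ∧ (∀ u ≤ a, F' u = F u) ∧ Sol α F' T := by
  obtain ⟨t0, ht0, hmin⟩ := (isCompact_Icc (a := a) (b := T)).exists_isMinOn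
    ⟨a, le_rfl, haT⟩ (hc_cont α).continuousOn
  obtain ⟨δ, hδ⟩ : ∃ δ, δ = hc α t0 := ⟨_, rfl⟩
  have hδ0 : 0 < δ := by
    rw [hδ]; exact hc_pos h0 h1 (by linarith [ht0.1]) (by linarith [ht0.2])
  have hδm : ∀ t ∈ Icc a T, δ ≤ hc α t := fun t ht => by rw [hδ]; exact hmin ht
  have key : ∀ n : ℕ, ∀ a', a ≤ a' → a' ≤ T → T - a' ≤ n * δ → ∀ F : ℝ → ℝ, ContDiff ℝ ∞ F →
      Sol α F a' → ∃ F' : ℝ → ℝ, ContDiff ℝ ∞ F' ∧ (∀ u ≤ a', F' u = F u) ∧ Sol α F' T := by
    intro n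
    induction n with
    | zero =>
      intro a' h2 h3 h4 F hF hs
      have h5 : a' = T := by
        simp only [Nat.cast_zero, zero_mul] at h4
        linarith
      exact ⟨F, hF, fun u _ => rfl, h5 ▸ hs⟩
    | succ n ih =>
      intro a' h2 h3 h4 F hF hs
      rcases eq_or_lt_of_le h3 with h5 | h5
      · exact ⟨F, hF, fun u _ => rfl, h5 ▸ hs⟩
      · obtain ⟨b, hb⟩ : ∃ b, b = min (a' + δ) T := ⟨_, rfl⟩
        have hb1 : b ≤ a' + δ := by rw [hb]; exact min_le_left _ _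
        have hb2 : b ≤ T := by rw [hb]; exact min_le_right _ _
        have hb3 : a' < b := by rw [hb]; exact lt_min (by linarith) h5
        obtain ⟨F1, hF1, hF1e, hF1s⟩ := ext1 h0 h1 (by linarith) hb3 (by linarith)
          (fun t ht => by
            have := hδm t ⟨by linarith [ht.1], by linarith [ht.2]⟩
            linarith) hF hs
        obtain ⟨F2, hF2, hF2e, hF2s⟩ := ih b (by linarith) hb2 (by
          push_cast at h4
          rcases min_choice (a' + δ) T with h6 | h6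
          · rw [hb, h6]; linarith
          · rw [hb, h6, sub_self]; positivity) F1 hF1 hF1s
        exact ⟨F2, hF2, fun u hu => by rw [hF2e u (by linarith), hF1e u hu], hF2s⟩
  obtain ⟨n, hn⟩ := exists_nat_ge ((T - a) / δ)
  exact key n a le_rfl haT (by rwa [div_le_iff₀ hδ0] at hn) F hF hs

/-- the solution on the open disc -/
theorem exists_profile (h0 : 0 < α) (h1 : α < 1) : ∃ F : ℝ → ℝ,
    (∀ u < 1, ContDiffAt ℝ ∞ F u) ∧
    (∀ t, α ^ 2 < t → t < 1 → II F t (hc α t) = 0) ∧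
    (∀ u ≤ α ^ 2 / 8, F u = 0) ∧ F (α ^ 2 / 4) = 1 := by
  have hα2 : 0 < α ^ 2 := by positivity
  have hα1 : α ^ 2 < 1 := by nlinarith
  -- the initial profile
  obtain ⟨f, hf⟩ : ∃ f : ContDiffBump (α ^ 2 / 4 : ℝ), f.rIn = α ^ 2 / 16 ∧ f.rOut = α ^ 2 / 8 :=
    ⟨⟨α ^ 2 / 16, α ^ 2 / 8, by positivity, by linarith⟩, rfl, rfl⟩
  have hfz : ∀ u, α ^ 2 / 8 ≤ |u - α ^ 2 / 4| → f u = 0 := by
    intro u hu
    refine f.zero_of_le_dist ?_
    rw [hf.2, Real.dist_eq]
    exact hu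
  -- the starting point
  have hc0 : hc α (α ^ 2) = 0 := by
    unfold hc Xc
    rw [Real.sqrt_sq h0.le]
    simp
  obtain ⟨a, ha, ha1, haδ⟩ : ∃ a, α ^ 2 < a ∧ a < 1 ∧ ∀ t, α ^ 2 < t → t ≤ a →
      hc α t < α ^ 2 / 8 := by
    have h2 : ∀ᶠ t in 𝓝 (α ^ 2), hc α t < α ^ 2 / 8 :=
      (hc_cont α).continuousAt.eventually (gt_mem_nhds (by rw [hc0]; positivity))
    obtain ⟨ε, hε, h3⟩ := Metric.eventually_nhds_iff.1 h2
    refine ⟨α ^ 2 + min (ε / 2) ((1 - α ^ 2) / 2), ?_, ?_, fun t h4 h5 => h3 ?_⟩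
    · have : 0 < min (ε / 2) ((1 - α ^ 2) / 2) := lt_min (by linarith) (by linarith)
      linarith
    · have := min_le_right (ε / 2) ((1 - α ^ 2) / 2)
      linarith
    · have := min_le_left (ε / 2) ((1 - α ^ 2) / 2)
      rw [Real.dist_eq, abs_lt]
      constructor <;> linarith
  have hsol0 : Sol α f a := by
    intro t h2 h3
    have h4 := hc_pos h0 h1 h2 (by linarith)
    have h5 := haδ t h2 h3
    unfold II
    have e : ∀ φ : ℝ, f (t - hc α t * (1 - Real.cos φ)) = 0 := by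
      intro φ
      refine hfz _ ?_
      have h6 := Real.neg_one_le_cos φ
      have h7 : hc α t * (1 - Real.cos φ) ≤ hc α t * 2 :=
        mul_le_mul_of_nonneg_left (by linarith) h4.le
      refine le_trans ?_ (le_abs_self _)
      linarith
    simp only [e, zero_mul, intervalIntegral.integral_zero]
  -- the sequence
  obtain ⟨T, hTd⟩ : ∃ T : ℕ → ℝ, T = fun n : ℕ => 1 - (1 - a) / ((n : ℝ) + 1) := ⟨_, rfl⟩
  have hT0 : T 0 = a := by rw [hTd]; simp
  have hT1 : ∀ n, T n < 1 := fun n => by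
    rw [hTd]
    have : 0 < (1 - a) / ((n : ℝ) + 1) := div_pos (by linarith) (by positivity)
    simp only
    linarith
  have hTm : Monotone T := by
    rw [hTd]
    intro n m hnm
    simp only
    have : (1 - a) / ((m : ℝ) + 1) ≤ (1 - a) / ((n : ℝ) + 1) := by
      have h2 : (n : ℝ) ≤ m := by exact_mod_cast hnm
      exact div_le_div_of_nonneg_left (by linarith) (by positivity) (by linarith)
    linarith
  have hTa : ∀ n, a ≤ T n := fun n => by rw [← hT0]; exact hTm (Nat.zero_le n)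
  have hTlim : Tendsto T atTop (𝓝 1) := by
    rw [hTd]
    have h2 : Tendsto (fun n : ℕ => (1 - a) / ((n : ℝ) + 1)) atTop (𝓝 0) :=
      tendsto_const_div_atTop_nhds_zero_nat (1 - a) |>.comp (tendsto_add_atTop_nat 1) |>.congr
        fun n => by simp
    have h3 := h2.const_sub 1
    simpa using h3
  have step : ∀ n (F : {F : ℝ → ℝ // ContDiff ℝ ∞ F ∧ Sol α F (T n)}),
      ∃ F' : {F : ℝ → ℝ // ContDiff ℝ ∞ F ∧ Sol α F (T (n + 1))},
        ∀ u ≤ T n, F'.1 u = F.1 u := by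
    intro n F
    obtain ⟨F', h2, h3, h4⟩ := extT h0 h1 (lt_of_lt_of_le ha (hTa n)) (hTm (Nat.le_succ n))
      (hT1 (n + 1)) F.2.1 F.2.2
    exact ⟨⟨F', h2, h4⟩, h3⟩
  choose S hS using step
  obtain ⟨g, hg0, hgS⟩ : ∃ g : (n : ℕ) → {F : ℝ → ℝ // ContDiff ℝ ∞ F ∧ Sol α F (T n)},
      (g 0).1 = f ∧ ∀ n, g (n + 1) = S n (g n) :=
    ⟨fun n => Nat.rec ⟨f, f.contDiff, by rw [hT0]; exact hsol0⟩ (fun n F => S n F) n, rfl,
      fun n => rfl⟩
  have hcoh : ∀ n m, n ≤ m → ∀ u ≤ T n, (g m).1 u = (g n).1 u := by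
    intro n m hnm
    induction m, hnm using Nat.le_induction with
    | base => exact fun u _ => rfl
    | succ m hm ih =>
      intro u hu
      rw [hgS, hS m (g m) u (hu.trans (hTm hm)), ih u hu]
  have hex : ∀ u < 1, ∃ n, u < T n := fun u hu => (hTlim.eventually (lt_mem_nhds hu)).exists
  classical
  obtain ⟨F, hFd⟩ : ∃ F : ℝ → ℝ, F = fun u => if h : ∃ n, u < T n then (g (Nat.find h)).1 u else 0 :=
    ⟨_, rfl⟩
  have hF : ∀ n, ∀ u < T n, F u = (g n).1 u := by
    intro n u hu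
    have h2 : ∃ n, u < T n := ⟨n, hu⟩
    rw [hFd]
    simp only [dif_pos h2]
    exact (hcoh _ _ (Nat.find_min' h2 hu) u (Nat.find_spec h2).le).symm
  refine ⟨F, ?_, ?_, ?_, ?_⟩
  · intro u hu
    obtain ⟨n, hn⟩ := hex u hu
    refine (g n).2.1.contDiffAt.congr_of_eventuallyEq ?_
    filter_upwards [Iio_mem_nhds hn] with v hv using hF n v hv
  · intro t ht ht1
    obtain ⟨n, hn⟩ := hex t ht1
    rw [II_congr (G := (g n).1) (hc_pos h0 h1 ht ht1).le fun u hu => hF n u (by linarith)]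
    exact (g n).2.2 t ht hn.le
  · intro u hu
    rw [hF 0 u (by rw [hT0]; linarith), hg0]
    refine hfz u ?_
    rw [abs_of_nonpos (by linarith)]
    linarith
  · rw [hF 0 _ (by rw [hT0]; linarith), hg0]
    refine f.one_of_mem_closedBall ?_
    rw [Metric.mem_closedBall, dist_self, hf.1]
    positivity

end

end Pool.Agent.U322.MO
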